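import Pool.Agent.helper47.CL.SpecD

set_option autoImplicit false

namespace Pool.Agent.helper41.CL

open Finset

theorem NM2_mem {α : Type} [DecidableEq α] {V : Finset α} {E : Finset (Finset α)} (hG : Gr V E) {e : Finset α}
    (he : e ∈ E) {x : α} (hx : x ∈ e) : x ∈ V := (hG e he).1 hx

theorem NM2_one {α : Type} [DecidableEq α] {E : Finset (Finset α)} {x : α} {f : Finset α}
    (h : #(inc E x) = 1) (hf : f ∈ E) (hxf : x ∈ f) : ∀ e ∈ E, x ∈ e → e = f := by
  intro e he hxe
  rw [Finset.card_eq_one] at h
  obtain ⟨g, hg⟩ := h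
  have h1 : e ∈ inc E x := Finset.mem_filter.mpr ⟨he, hxe⟩
  have h2 : f ∈ inc E x := Finset.mem_filter.mpr ⟨hf, hxf⟩
  rw [hg, Finset.mem_singleton] at h1 h2
  rw [h1, h2]

theorem NM2_two {α : Type} [DecidableEq α] {E : Finset (Finset α)} {b p y : α}
    (h : Tw E b p y) : 2 ≤ #(inc E b) := by
  obtain ⟨hpy, hbp, hby, h1, h2, -⟩ := h
  have hne : ({b, p} : Finset α) ≠ {b, y} := by
    intro h
    have : p ∈ ({b, y} : Finset α) := by rw [← h]; simp
    rw [Finset.mem_insert, Finset.mem_singleton] at this
    rcases this with h | h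
    · exact hbp h.symm
    · exact hpy h
  have hsub : ({{b, p}, {b, y}} : Finset (Finset α)) ⊆ inc E b := by
    intro e he
    rw [Finset.mem_insert, Finset.mem_singleton] at he
    rcases he with rfl | rfl
    · exact Finset.mem_filter.mpr ⟨h1, by simp⟩
    · exact Finset.mem_filter.mpr ⟨h2, by simp⟩
  calc 2 = #({{b, p}, {b, y}} : Finset (Finset α)) := (Finset.card_pair hne).symm
    _ ≤ _ := Finset.card_le_card hsub

theorem NM2 (h1 : RD_stmt) (h2 : NA_stmt) (h3 : NQ_stmt) (h4 : NS_stmt) (h5 : NT_stmt) (h6 : ZW_stmt)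
    (h7 : ZP_stmt) : NM2_stmt := by
  intro N
  induction N with
  | zero =>
    intro α _ V E q r hG hV hN hr hrq hE hH
    omega
  | succ N ih =>
    intro α _ V E q r hG hV hN hr hrq hE hH
    obtain ⟨hSA, hSB, -⟩ := h1 (N + 1)
    by_cases hE2 : #E + 2 ≤ q + 2 * r
    · have h := hSB α V E q r hG hV hN (by omega) hE2
      have hn : 2 * (2 * 3 ^ r * 2 ^ q) ≤ 2 * (3 * 2 ^ r * #(ind V E (q + 1))) := Nat.mul_le_mul_left 2 h
      calc 4 * 3 ^ r * 2 ^ q = 2 * (2 * 3 ^ r * 2 ^ q) := by ring
        _ ≤ 2 * (3 * 2 ^ r * #(ind V E (q + 1))) := hn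
        _ = 6 * (2 ^ r * #(ind V E (q + 1))) := by ring
        _ ≤ 9 * (2 ^ r * #(ind V E (q + 1))) := Nat.mul_le_mul_right _ (by norm_num)
        _ = _ := by ring
    · have hE1 : #E + 1 = q + 2 * r := by omega
      by_cases hr1 : r = 1
      · subst hr1
        have h := h2 α V E q hG (by omega) (by omega) (by omega) hH
        calc 4 * 3 ^ 1 * 2 ^ q = 6 * (2 * 2 ^ q) := by ring
          _ ≤ 6 * (3 * #(ind V E (q + 1))) := Nat.mul_le_mul_left 6 h
          _ = _ := by ring
      · obtain ⟨s, rfl⟩ : ∃ s, r = s + 1 := ⟨r - 1, by omega⟩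
        obtain ⟨m, rfl⟩ : ∃ m, q = m + 1 := ⟨q - 1, by omega⟩
        obtain ⟨hSAN, hSBN, -⟩ := h1 N
        rcases h4 α V E hG with ⟨p, hp⟩ | ⟨p, a, b, hT, ha, hb, hab⟩ | ⟨hd, p, a, b, hT, hab⟩ |
          ⟨p, a, b, y, hT, hT2, ha, hy⟩ | ⟨hd, hK⟩
        · -- a vertex of degree at least three
          have hpV : p ∈ V := by
            have hne : (inc E p).Nonempty := by
              rw [← Finset.card_pos]; omega
            obtain ⟨e, he⟩ := hne
            rw [inc, Finset.mem_filter] at he
            exact NM2_mem hG he.1 he.2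
          obtain ⟨hG1, hV1, hE3, hk⟩ := h7 α V E p hG hpV
          have h := hSBN α (V.erase p) (av E {p}) (m + 1) s hG1 (by omega) (by omega) (by omega) (by omega)
          have hk1 := hk (m + 1 + 1)
          have h8 : 3 * 2 ^ s * #(ind (V.erase p) (av E {p}) (m + 1 + 1)) ≤ 3 * 2 ^ s * #(ind V E (m + 1 + 1)) :=
            Nat.mul_le_mul_left _ hk1
          calc 4 * 3 ^ (s + 1) * 2 ^ (m + 1) = 6 * (2 * 3 ^ s * 2 ^ (m + 1)) := by ring
            _ ≤ 6 * (3 * 2 ^ s * #(ind V E (m + 1 + 1))) := Nat.mul_le_mul_left 6 (h.trans h8)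
            _ = _ := by ring
        · -- degree two, both neighbours of degree at least two, not adjacent
          obtain ⟨hG3, hG1, hV3, hV1, hE1', -, hE3, hk⟩ := h6 α V E p a b hG hT
          have hE4 := hE3 ha hb hab
          have hA := hSAN α (V.erase p) (av E {p}) (m + 1) s hG1 (by omega) (by omega) (by omega) (by omega)
          have hB := hSBN α (V \ {p, a, b}) (av E {p, a, b}) m s hG3 (by omega) (by omega) (by omega) (by omega)
          have hk1 := hk (m + 1)
          have h8 : 3 * 2 ^ s * (#(ind (V \ {p, a, b}) (av E {p, a, b}) (m + 1)) +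
              #(ind (V.erase p) (av E {p}) (m + 1 + 1))) ≤ 3 * 2 ^ s * #(ind V E (m + 1 + 1)) :=
            Nat.mul_le_mul_left _ hk1
          have h9 : 3 ^ s * 2 ^ (m + 1) + 2 * 3 ^ s * 2 ^ m ≤ 3 * 2 ^ s * #(ind V E (m + 1 + 1)) := by
            refine le_trans ?_ h8
            rw [mul_add]
            linarith
          calc 4 * 3 ^ (s + 1) * 2 ^ (m + 1) = 6 * (3 ^ s * 2 ^ (m + 1) + 2 * 3 ^ s * 2 ^ m) := by ring
            _ ≤ 6 * (3 * 2 ^ s * #(ind V E (m + 1 + 1))) := Nat.mul_le_mul_left 6 h9
            _ = _ := by ring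
        · -- a triangle component
          obtain ⟨hG3, hV3, hE3, hk, hHH⟩ := h5 α V E p a b hG hd hT hab
          have h := ih α (V \ {p, a, b}) (av E {p, a, b}) m s hG3 (by omega) (by omega) (by omega) (by omega)
            (by omega) (hHH (m + 1) hH)
          have hk1 := hk (m + 1)
          have h8 : 18 * 2 ^ s * (3 * #(ind (V \ {p, a, b}) (av E {p, a, b}) (m + 1))) ≤
              18 * 2 ^ s * #(ind V E (m + 1 + 1)) := Nat.mul_le_mul_left _ hk1
          calc 4 * 3 ^ (s + 1) * 2 ^ (m + 1) = 6 * (4 * 3 ^ s * 2 ^ m) := by ring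
            _ ≤ 6 * (9 * 2 ^ s * #(ind (V \ {p, a, b}) (av E {p, a, b}) (m + 1))) := Nat.mul_le_mul_left 6 h
            _ = 18 * 2 ^ s * (3 * #(ind (V \ {p, a, b}) (av E {p, a, b}) (m + 1))) := by ring
            _ ≤ 18 * 2 ^ s * #(ind V E (m + 1 + 1)) := h8
            _ = _ := by ring
        · -- a path with four vertices
          obtain ⟨hG3, hG1, hV3, hV1, hE1', hE3, -, hk⟩ := h6 α V E p a b hG hT
          have hb2 : 2 ≤ #(inc E b) := NM2_two hT2
          have hE4 := hE3 (Or.inr hb2)
          obtain ⟨hab, hpa, hpb, hpaE, hpbE, -⟩ := hT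
          obtain ⟨hpy, hbp, hby, hbpE, hbyE, -⟩ := hT2
          have ha1 := NM2_one ha hpaE (by simp : a ∈ ({p, a} : Finset α))
          have hy1 := NM2_one hy hbyE (by simp : y ∈ ({b, y} : Finset α))
          have hya : y ≠ a := by
            rintro rfl
            have h10 := ha1 {b, y} hbyE (by simp)
            have : b ∈ ({p, y} : Finset α) := by rw [← h10]; simp
            rw [Finset.mem_insert, Finset.mem_singleton] at this
            rcases this with h | h
            · exact hbp h
            · exact hby h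
          have haV : a ∈ V := NM2_mem hG hpaE (by simp)
          have hyV : y ∈ V := NM2_mem hG hbyE (by simp)
          have hHA : HH (V.erase p) (av E {p}) (m + 1 + 1) := by
            left
            refine ⟨a, Finset.mem_erase.mpr ⟨fun h => hpa h.symm, haV⟩, ?_⟩
            intro e he hae
            rw [av, Finset.mem_filter] at he
            have h11 := ha1 e he.1 hae
            have h12 := he.2
            rw [h11, Finset.disjoint_singleton_right] at h12
            exact h12 (by simp)
          have hHB : HH (V \ {p, a, b}) (av E {p, a, b}) (m + 1) := by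
            left
            refine ⟨y, Finset.mem_sdiff.mpr ⟨hyV, ?_⟩, ?_⟩
            · rw [Finset.mem_insert, Finset.mem_insert, Finset.mem_singleton]
              rintro (h | h | h)
              · exact hpy h.symm
              · exact hya h
              · exact hby h.symm
            · intro e he hye
              rw [av, Finset.mem_filter] at he
              have h11 := hy1 e he.1 hye
              have h12 := he.2
              rw [h11] at h12
              exact (Finset.disjoint_left.mp h12 (by simp : b ∈ ({b, y} : Finset α))) (by simp)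
          have hA := ih α (V.erase p) (av E {p}) (m + 1) s hG1 (by omega) (by omega) (by omega) (by omega)
            (by omega) hHA
          have hB := ih α (V \ {p, a, b}) (av E {p, a, b}) m s hG3 (by omega) (by omega) (by omega) (by omega)
            (by omega) hHB
          have hk1 := hk (m + 1)
          have h8 : 9 * 2 ^ s * (#(ind (V \ {p, a, b}) (av E {p, a, b}) (m + 1)) +
              #(ind (V.erase p) (av E {p}) (m + 1 + 1))) ≤ 9 * 2 ^ s * #(ind V E (m + 1 + 1)) :=
            Nat.mul_le_mul_left _ hk1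
          have h9 : 4 * 3 ^ s * 2 ^ (m + 1) + 4 * 3 ^ s * 2 ^ m ≤ 9 * 2 ^ s * #(ind V E (m + 1 + 1)) := by
            refine le_trans ?_ h8
            rw [mul_add]
            linarith
          calc 4 * 3 ^ (s + 1) * 2 ^ (m + 1) = 2 * (4 * 3 ^ s * 2 ^ (m + 1) + 4 * 3 ^ s * 2 ^ m) := by ring
            _ ≤ 2 * (9 * 2 ^ s * #(ind V E (m + 1 + 1))) := Nat.mul_le_mul_left 2 h9
            _ = _ := by ring
        · exact h3 α V E (m + 1) (s + 1) hG hV hE1 (by omega) hd hK

end Pool.Agent.helper41.CL

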